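import Pool.Agent.Helper44.GH.Stmts

/-!
# GH, module CTJ (helper48): continuity in the matrices
-/

open Finset MeasureTheory Filter Topology Matrix
open scoped ENNReal ContDiff

namespace Pool.Agent.Helper44.GH

open Pool.Agent.Helper44.GF Pool.Agent.Helper44.GN

/-- entries continuous on the set -/
def ctj_C {X : Type} [TopologicalSpace X] {a b : ℕ} (S : Set X)
    (A : X → Matrix (Fin a) (Fin b) ℝ) : Prop :=
  ∀ i j, ContinuousOn (fun p => A p i j) S

theorem ctj_mul {X : Type} [TopologicalSpace X] {a b c : ℕ} {S : Set X}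
    {A : X → Matrix (Fin a) (Fin b) ℝ} {B : X → Matrix (Fin b) (Fin c) ℝ}
    (hA : ctj_C S A) (hB : ctj_C S B) : ctj_C S (fun p => A p * B p) := by
  intro i j
  simp only [Matrix.mul_apply]
  apply continuousOn_finsetSum
  intro x _
  exact (hA i x).mul (hB x j)

theorem ctj_sub {X : Type} [TopologicalSpace X] {a b : ℕ} {S : Set X}
    {A B : X → Matrix (Fin a) (Fin b) ℝ}
    (hA : ctj_C S A) (hB : ctj_C S B) : ctj_C S (fun p => A p - B p) := by
  intro i j
  simp only [Matrix.sub_apply]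
  exact (hA i j).sub (hB i j)

theorem ctj_tr {X : Type} [TopologicalSpace X] {a b : ℕ} {S : Set X}
    {A : X → Matrix (Fin a) (Fin b) ℝ} (hA : ctj_C S A) : ctj_C S (fun p => (A p)ᵀ) := by
  intro i j
  simp only [Matrix.transpose_apply]
  exact hA j i

theorem ctj_const {X : Type} [TopologicalSpace X] {a b : ℕ} {S : Set X}
    (A : Matrix (Fin a) (Fin b) ℝ) : ctj_C S (fun _ => A) := fun _ _ => continuousOn_const

theorem ctj_trace {X : Type} [TopologicalSpace X] {a : ℕ} {S : Set X}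
    {A : X → Matrix (Fin a) (Fin a) ℝ} (hA : ctj_C S A) :
    ContinuousOn (fun p => Matrix.trace (A p)) S := by
  simp only [Matrix.trace, Matrix.diag]
  apply continuousOn_finsetSum
  intro i _
  exact hA i i

theorem ctj_det {X : Type} [TopologicalSpace X] {a : ℕ} {S : Set X}
    {A : X → Matrix (Fin a) (Fin a) ℝ} (hA : ctj_C S A) :
    ContinuousOn (fun p => (A p).det) S := by
  simp only [Matrix.det_apply]
  apply continuousOn_finsetSum
  intro σ _
  apply ContinuousOn.const_smul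
  apply continuousOn_finsetProd
  intro i _
  exact hA _ _

theorem ctj_inv {X : Type} [TopologicalSpace X] {a : ℕ} {S : Set X}
    {A : X → Matrix (Fin a) (Fin a) ℝ} (hA : ctj_C S A)
    (h0 : ∀ p ∈ S, (A p).det ≠ 0) : ctj_C S (fun p => (A p)⁻¹) := by
  intro i j
  have h : (fun p => (A p)⁻¹ i j)
      = fun p => (A p).det⁻¹ * ((A p).updateRow j (Pi.single i 1)).det := by
    funext p
    rw [Matrix.inv_def, Matrix.smul_apply, Matrix.adjugate_apply, smul_eq_mul,
      Ring.inverse_eq_inv']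
  rw [h]
  refine ((ctj_det hA).inv₀ h0).mul (ctj_det ?_)
  intro k l
  simp only [Matrix.updateRow_apply]
  by_cases hk : k = j
  · simp only [hk, if_true]
    exact continuousOn_const
  · simp only [hk, if_false]
    exact hA k l

theorem ctj_TT {X : Type} [TopologicalSpace X] {n m : ℕ} {S : Set X}
    {V W : X → Matrix (Fin n) (Fin m) ℝ} (hV : ctj_C S V) (hW : ctj_C S W) (y : Fin n → ℝ) :
    ctj_C S (fun p => TT (V p) (W p) y) := by
  unfold TT
  exact ctj_mul (ctj_mul (ctj_tr hV) (ctj_const _)) hW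

theorem ctj_pos {n m : ℕ} (V : Matrix (Fin n) (Fin m) ℝ) (hV : Function.Injective V.mulVec)
    (R : Fin n → ℝ) (hR : R ∈ Og n) : 0 < qf V R := by
  have h1 : (Matrix.diagonal R).PosDef := Matrix.PosDef.diagonal fun x => hR x
  have h2 := h1.conjTranspose_mul_mul_same hV
  rw [Matrix.conjTranspose_eq_transpose_of_trivial] at h2
  exact h2.det_pos

theorem ctj_inj {n m : ℕ} (V : Matrix (Fin n) (Fin m) ℝ) :
    Function.Injective V.mulVec ↔ (Vᵀ * V).det ≠ 0 := by
  constructor
  · intro hV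
    have h := ctj_pos V hV (fun _ => 1) (fun _ => one_pos)
    unfold qf TT at h
    rw [Matrix.diagonal_one, Matrix.mul_one] at h
    exact h.ne'
  · intro h x x' hx
    have h1 : (Vᵀ * V) *ᵥ (x - x') = 0 := by
      rw [← Matrix.mulVec_mulVec, Matrix.mulVec_sub]
      have h2 : V *ᵥ x = V *ᵥ x' := hx
      rw [h2, sub_self, Matrix.mulVec_zero]
    exact sub_eq_zero.mp (Matrix.eq_zero_of_mulVec_eq_zero h h1)

theorem ctj_tau {n : ℕ} {Y : Type} [Fintype Y] [DecidableEq Y] {s ζ δ : ℝ} {r z : Y → ℝ}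
    (h : MD s ζ δ r z) (η : Finset (Fin n × Y)) : tau δ r η ∈ Og n := by
  intro i
  unfold tau
  have h1 : 0 ≤ ∑ y, (if (i, y) ∈ η then r y else 0) := by
    apply Finset.sum_nonneg
    intro y _
    split_ifs
    · exact (h.r0 y).le
    · exact le_rfl
  have h2 := h.d0
  linarith

theorem ctj_rpow {X : Type} [TopologicalSpace X] {n m : ℕ} {S : Set X}
    {V : X → Matrix (Fin n) (Fin m) ℝ} (hV : ctj_C S V)
    (hi : ∀ p ∈ S, Function.Injective (V p).mulVec) {y : Fin n → ℝ} (hy : y ∈ Og n) :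
    ContinuousOn (fun p => (qf (V p) y) ^ (-(1 / 2) : ℝ)) S := by
  have h1 : ContinuousOn (fun p => qf (V p) y) S := ctj_det (ctj_TT hV hV y)
  exact h1.rpow_const fun p hp => Or.inl (ctj_pos (V p) (hi p hp) y hy).ne'

theorem ctj_BB {X : Type} [TopologicalSpace X] {n m : ℕ} {S : Set X}
    {V Z : X → Matrix (Fin n) (Fin m) ℝ} (hV : ctj_C S V) (hZ : ctj_C S Z)
    (hi : ∀ p ∈ S, Function.Injective (V p).mulVec) {y : Fin n → ℝ} (hy : y ∈ Og n) :
    ctj_C S (fun p => BB (V p) (Z p) y) := by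
  unfold BB
  exact ctj_mul (ctj_inv (ctj_TT hV hV y) fun p hp => (ctj_pos (V p) (hi p hp) y hy).ne')
    (ctj_TT hV hZ y)

theorem ctj_sgm {X : Type} [TopologicalSpace X] {n m : ℕ} {S : Set X}
    {V Z : X → Matrix (Fin n) (Fin m) ℝ} (hV : ctj_C S V) (hZ : ctj_C S Z)
    (hi : ∀ p ∈ S, Function.Injective (V p).mulVec) {y : Fin n → ℝ} (hy : y ∈ Og n) :
    ContinuousOn (fun p => sgm (V p) (Z p) y) S := by
  unfold sgm
  have hB := ctj_BB hV hZ hi hy
  exact ctj_trace (ctj_mul
    (ctj_inv (ctj_TT hV hV y) fun p hp => (ctj_pos (V p) (hi p hp) y hy).ne')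
    (ctj_sub (ctj_TT hZ hZ y) (ctj_mul (ctj_mul (ctj_tr hB) (ctj_TT hV hV y)) hB)))

theorem st_CTJ : ST_CTJ := by
  intro n m Y _ _ s ζ δ r z hM
  have hid : ∀ S : Set (Matrix (Fin n) (Fin m) ℝ),
      ctj_C S (fun V : Matrix (Fin n) (Fin m) ℝ => V) := by
    intro S i j
    exact (continuous_id.matrix_elem i j).continuousOn
  have h1 : ∀ S : Set (Matrix (Fin n) (Fin m) ℝ × Matrix (Fin n) (Fin m) ℝ),
      ctj_C S (fun p : Matrix (Fin n) (Fin m) ℝ × Matrix (Fin n) (Fin m) ℝ => p.1) := by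
    intro S i j
    exact (continuous_fst.matrix_elem i j).continuousOn
  have h2 : ∀ S : Set (Matrix (Fin n) (Fin m) ℝ × Matrix (Fin n) (Fin m) ℝ),
      ctj_C S (fun p : Matrix (Fin n) (Fin m) ℝ × Matrix (Fin n) (Fin m) ℝ => p.2) := by
    intro S i j
    exact (continuous_snd.matrix_elem i j).continuousOn
  refine ⟨?_, ?_, ?_, ?_⟩
  · have h3 : {V : Matrix (Fin n) (Fin m) ℝ | Function.Injective V.mulVec}
        = (fun V : Matrix (Fin n) (Fin m) ℝ => (Vᵀ * V).det) ⁻¹' {0}ᶜ := by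
      ext V
      simp only [Set.mem_ofPred_eq, Set.mem_preimage, Set.mem_compl_iff, Set.mem_singleton_iff]
      exact ctj_inj V
    rw [h3]
    apply isOpen_compl_singleton.preimage
    have h4 := ctj_det (ctj_mul (ctj_tr (hid Set.univ)) (hid Set.univ))
    exact continuousOn_univ.mp h4
  · unfold MS W1
    apply continuousOn_finsetSum
    intro η _
    exact continuousOn_const.mul (ctj_rpow (hid _) (fun p hp => hp) (ctj_tau hM η))
  · unfold M1 W1
    apply ContinuousOn.neg
    apply continuousOn_finsetSum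
    intro η _
    refine (continuousOn_const.mul (ctj_rpow (h1 _) (fun p hp => hp) (ctj_tau hM η))).mul ?_
    exact ctj_trace (ctj_BB (h1 _) (h2 _) (fun p hp => hp) (ctj_tau hM η))
  · unfold M2 W1
    apply continuousOn_finsetSum
    intro η _
    have hB := ctj_BB (h1 _) (h2 _) (fun p hp => hp) (ctj_tau hM η)
      (S := {p : Matrix (Fin n) (Fin m) ℝ × Matrix (Fin n) (Fin m) ℝ |
        Function.Injective p.1.mulVec})
    refine (continuousOn_const.mul (ctj_rpow (h1 _) (fun p hp => hp) (ctj_tau hM η))).mul ?_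
    refine (((ctj_trace hB).pow 2).add (ctj_trace (ctj_mul hB hB))).sub ?_
    exact ctj_sgm (h1 _) (h2 _) (fun p hp => hp) (ctj_tau hM η)

end Pool.Agent.Helper44.GH
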